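import Pool.Agent.H349R2.Tet.Aff
import Pool.Agent.H349R2.Tet.Pack
import Pool.Agent.TH219.DL.Bridge

/-!
# A lattice packing of circular cones (helper334): the packing
-/

set_option autoImplicit false

namespace Pool.Agent.N334.CC

open MeasureTheory
open Pool.Agent.H349R2.Tet

/-- the standard circular cone: unit disk in the plane `x 2 = 0`, apex `(0, 0, 1)` -/
def cone0 : Set V := {x | 0 ≤ x 2 ∧ x 2 ≤ 1 ∧ x 0 ^ 2 + x 1 ^ 2 ≤ (1 - x 2) ^ 2}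

theorem arith (i j k : ℤ) (h : ¬ (i = 0 ∧ j = 0 ∧ k = 0))
    (hZ : |35 * (i + j) + 80 * k| < 80) :
    (160 - |35 * (i + j) + 80 * k|) ^ 2 ≤ (83 * (i + j) + 16 * k) ^ 2 + 8736 * (i - j) ^ 2 := by
  by_contra hc
  push Not at hc
  have h0 := abs_nonneg (35 * (i + j) + 80 * k)
  have h1 : (83 * (i + j) + 16 * k) ^ 2 + 8736 * (i - j) ^ 2 < 160 ^ 2 := by nlinarith
  have hX : |83 * (i + j) + 16 * k| < 160 :=
    abs_lt_of_sq_lt_sq (by nlinarith [sq_nonneg (i - j)]) (by norm_num)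
  have hn : |i - j| < 2 :=
    abs_lt_of_sq_lt_sq (by nlinarith [sq_nonneg (83 * (i + j) + 16 * k)]) (by norm_num)
  rw [abs_lt] at hX hn
  have hZ' := abs_lt.1 hZ
  have hb : -1 ≤ i ∧ i ≤ 1 ∧ -1 ≤ j ∧ j ≤ 1 ∧ -1 ≤ k ∧ k ≤ 1 := by omega
  obtain ⟨h1, h2, h3, h4, h5, h6⟩ := hb
  clear h0 hX hn hZ'
  interval_cases i <;> interval_cases j <;> interval_cases k <;> revert hc h hZ <;> decide

/-- the basis of the lattice -/
noncomputable def lb : Fin 3 → V :=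
  ![![83 / 80, √546 / 20, -7 / 16], ![83 / 80, -(√546 / 20), -7 / 16], ![1 / 5, 0, -1]]

theorem dt_lb : dt lb = 19 * √546 / 200 := by
  unfold dt lb
  rw [Matrix.det_fin_three]
  simp
  ring

theorem s_pos : (0 : ℝ) < √546 := Real.sqrt_pos.2 (by norm_num)

theorem cs {x y x' y' A B : ℝ} (hA : 0 ≤ A) (hB : 0 ≤ B) (h : x ^ 2 + y ^ 2 ≤ A ^ 2)
    (h' : x' ^ 2 + y' ^ 2 ≤ B ^ 2) : |x * x' + y * y'| ≤ A * B := by
  apply abs_le_of_sq_le_sq _ (mul_nonneg hA hB)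
  have h1 : (x * x' + y * y') ^ 2 ≤ (x ^ 2 + y ^ 2) * (x' ^ 2 + y' ^ 2) := by
    nlinarith [sq_nonneg (x * y' - y * x')]
  have h2 : (x ^ 2 + y ^ 2) * (x' ^ 2 + y' ^ 2) ≤ A ^ 2 * B ^ 2 :=
    mul_le_mul h h' (by positivity) (by positivity)
  nlinarith

theorem key {p p' : V} (hp : p ∈ interior cone0) (hp' : p' ∈ cone0) :
    |p' 2 - p 2| < 1 ∧ (p' 0 - p 0) ^ 2 + (p' 1 - p 1) ^ 2 < (2 - |p' 2 - p 2|) ^ 2 := by
  have hcont : Continuous fun t : ℝ => p + t • (Pi.single 2 1 : V) := by fun_prop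
  have hev : ∀ᶠ t in nhds (0 : ℝ), p + t • (Pi.single 2 1 : V) ∈ cone0 := by
    have h1 : interior cone0 ∈ nhds (p + (0 : ℝ) • (Pi.single 2 1 : V)) := by
      rw [zero_smul, add_zero]
      exact isOpen_interior.mem_nhds hp
    filter_upwards [hcont.continuousAt h1] with t ht
    exact interior_subset ht
  obtain ⟨ε, hε, hball⟩ := Metric.eventually_nhds_iff.1 hev
  have h1 := hball (y := ε / 2) (by rw [Real.dist_eq, sub_zero, abs_of_pos (by positivity)]; linarith)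
  have h2 := hball (y := -(ε / 2)) (by
    rw [Real.dist_eq, sub_zero, abs_neg, abs_of_pos (by positivity)]; linarith)
  obtain ⟨-, h12, h13⟩ := h1
  obtain ⟨h21, -, -⟩ := h2
  obtain ⟨h31, h32, h33⟩ := hp'
  simp at h12 h13 h21
  set δ := ε / 2 with hδ
  have hδ0 : 0 < δ := by positivity
  have h4 := cs (A := 1 - (p 2 + δ)) (B := 1 - p' 2) (by linarith) (by linarith) h13 h33
  have h5 := abs_le.1 h4
  refine ⟨abs_lt.2 ⟨by linarith, by linarith⟩, ?_⟩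
  have h6 : |p' 2 - p 2| ≤ p 2 + p' 2 := abs_le.2 ⟨by linarith, by linarith⟩
  have h7 : (p' 0 - p 0) ^ 2 + (p' 1 - p 1) ^ 2 ≤ ((1 - (p 2 + δ)) + (1 - p' 2)) ^ 2 := by
    nlinarith
  refine lt_of_le_of_lt h7 ?_
  have h8 : 0 ≤ (1 - (p 2 + δ)) + (1 - p' 2) := by linarith
  have h9 : (1 - (p 2 + δ)) + (1 - p' 2) < 2 - |p' 2 - p 2| := by linarith
  exact pow_lt_pow_left₀ h9 h8 (by norm_num)

end Pool.Agent.N334.CC
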