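import Pool.Agent.N334.CC.A

/-!
# The lattice packing of circular cones (helper334)
-/

set_option autoImplicit false

namespace Pool.Agent.N334.CC

open MeasureTheory
open Pool.Agent.H349R2.Tet

theorem packs0 : Packs cone0 lb := by
  rw [packs_iff]
  have hs := s_pos
  have hs2 : √546 ^ 2 = 546 := Real.sq_sqrt (by norm_num)
  refine ⟨by rw [dt_lb]; positivity, ?_⟩
  rintro u ⟨z, rfl⟩ hu hO
  obtain ⟨p, hp, p', hp', hpp⟩ : ∃ p ∈ interior cone0, ∃ p' ∈ cone0,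
      p' - p = ∑ i, (z i : ℝ) • lb i := by
    obtain ⟨x, hx, hxu⟩ := hO
    exact ⟨_, hxu, x, interior_subset hx, by abel⟩
  have hk := key hp hp'
  have e0 : p' 0 - p 0 = ((83 * (z 0 + z 1) + 16 * z 2 : ℤ) : ℝ) / 80 := by
    have := congrFun hpp 0
    simp [lb, Fin.sum_univ_three] at this
    rw [this]
    push_cast
    ring
  have e1 : p' 1 - p 1 = √546 * ((z 0 - z 1 : ℤ) : ℝ) / 20 := by
    have := congrFun hpp 1
    simp [lb, Fin.sum_univ_three] at this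
    rw [this]
    push_cast
    ring
  have e2 : p' 2 - p 2 = -((35 * (z 0 + z 1) + 80 * z 2 : ℤ) : ℝ) / 80 := by
    have := congrFun hpp 2
    simp [lb, Fin.sum_univ_three] at this
    rw [this]
    push_cast
    ring
  have e3 : |p' 2 - p 2| = ((|35 * (z 0 + z 1) + 80 * z 2| : ℤ) : ℝ) / 80 := by
    rw [e2, neg_div, abs_neg, abs_div, Int.cast_abs, abs_of_pos (by norm_num : (0 : ℝ) < 80)]
  have hne : ¬ (z 0 = 0 ∧ z 1 = 0 ∧ z 2 = 0) := by
    rintro ⟨h0, h1, h2⟩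
    apply hu
    rw [Fin.sum_univ_three, h0, h1, h2]
    simp
  have hZ : |35 * (z 0 + z 1) + 80 * z 2| < 80 := by
    have h1 := hk.1
    rw [e3, div_lt_one (by norm_num)] at h1
    exact_mod_cast h1
  have hA := arith _ _ _ hne hZ
  have hA' : ((160 : ℝ) - ((|35 * (z 0 + z 1) + 80 * z 2| : ℤ) : ℝ)) ^ 2 ≤
      ((83 * (z 0 + z 1) + 16 * z 2 : ℤ) : ℝ) ^ 2 + 8736 * ((z 0 - z 1 : ℤ) : ℝ) ^ 2 := by
    exact_mod_cast hA
  have h2 := hk.2
  rw [e3, e0, e1] at h2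
  have h3 : (√546 * ((z 0 - z 1 : ℤ) : ℝ) / 20) ^ 2 = 8736 * ((z 0 - z 1 : ℤ) : ℝ) ^ 2 / 6400 := by
    rw [div_pow, mul_pow, hs2]
    ring
  rw [h3] at h2
  have h4 : (2 - ((|35 * (z 0 + z 1) + 80 * z 2| : ℤ) : ℝ) / 80) ^ 2 =
      ((160 : ℝ) - ((|35 * (z 0 + z 1) + 80 * z 2| : ℤ) : ℝ)) ^ 2 / 6400 := by ring
  rw [h4, div_pow] at h2
  norm_num at h2 hA'
  linarith

end Pool.Agent.N334.CC
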