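import Pool.Agent.N334.CC.A
import Mathlib.MeasureTheory.Measure.Lebesgue.VolumeOfBalls

/-!
# The volume of the circular cone (helper334)
-/

set_option autoImplicit false

namespace Pool.Agent.N334.CC

open MeasureTheory
open Pool.Agent.H349R2.Tet

theorem disk (r : ℝ) (hr : 0 ≤ r) :
    volume {w : Fin 2 → ℝ | w 0 ^ 2 + w 1 ^ 2 ≤ r ^ 2} = ENNReal.ofReal (r ^ 2 * Real.pi) := by
  have hcl : IsClosed {w : Fin 2 → ℝ | w 0 ^ 2 + w 1 ^ 2 ≤ r ^ 2} :=
    isClosed_le (by fun_prop) continuous_const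
  have h1 := (PiLp.volume_preserving_ofLp (Fin 2)).measure_preimage
    (s := {w : Fin 2 → ℝ | w 0 ^ 2 + w 1 ^ 2 ≤ r ^ 2}) hcl.measurableSet.nullMeasurableSet
  rw [← h1]
  have h2 : (WithLp.ofLp ⁻¹' {w : Fin 2 → ℝ | w 0 ^ 2 + w 1 ^ 2 ≤ r ^ 2} :
      Set (EuclideanSpace ℝ (Fin 2))) = Metric.closedBall 0 r := by
    ext x
    rw [Metric.mem_closedBall, dist_zero_right, EuclideanSpace.norm_eq, Fin.sum_univ_two,
      Real.sqrt_le_left hr]
    simp [sq_abs]
  rw [h2, EuclideanSpace.volume_closedBall_fin_two, ← ENNReal.ofReal_pow hr,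
    ← ENNReal.ofReal_mul (by positivity)]

theorem closed0 : IsClosed cone0 := by
  have h1 : IsClosed {x : V | 0 ≤ x 2} := isClosed_le continuous_const (by fun_prop)
  have h2 : IsClosed {x : V | x 2 ≤ 1} := isClosed_le (by fun_prop) continuous_const
  have h3 : IsClosed {x : V | x 0 ^ 2 + x 1 ^ 2 ≤ (1 - x 2) ^ 2} :=
    isClosed_le (by fun_prop) (by fun_prop)
  exact h1.inter (h2.inter h3)

theorem compact0 : IsCompact cone0 := by
  apply Metric.isCompact_of_isClosed_isBounded closed0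
  apply (Metric.isBounded_closedBall (x := (0 : V)) (r := 1)).subset
  rintro x ⟨h1, h2, h3⟩
  rw [mem_closedBall_zero_iff, pi_norm_le_iff_of_nonneg (by norm_num)]
  intro i
  rw [Real.norm_eq_abs]
  have h4 : (1 - x 2) ^ 2 ≤ 1 ^ 2 := pow_le_pow_left₀ (by linarith) (by linarith) 2
  fin_cases i
  · show |x 0| ≤ 1
    exact abs_le_of_sq_le_sq (by nlinarith [sq_nonneg (x 1)]) (by norm_num)
  · show |x 1| ≤ 1
    exact abs_le_of_sq_le_sq (by nlinarith [sq_nonneg (x 0)]) (by norm_num)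
  · show |x 2| ≤ 1
    exact abs_le.2 ⟨by linarith, h2⟩

theorem vol0 : ENNReal.ofReal (Real.pi / 3) ≤ volume cone0 := by
  have hmp := volume_preserving_piFinSuccAbove (fun _ : Fin 3 => ℝ) 2
  set e := MeasurableEquiv.piFinSuccAbove (fun _ : Fin 3 => ℝ) 2 with he
  set S : Set (ℝ × (Fin 2 → ℝ)) :=
    {q | 0 ≤ q.1 ∧ q.1 ≤ 1 ∧ q.2 0 ^ 2 + q.2 1 ^ 2 ≤ (1 - q.1) ^ 2} with hS
  have hpre : cone0 = e ⁻¹' S := by
    ext x
    rfl
  have hSm : MeasurableSet S := by
    have h1 : IsClosed {q : ℝ × (Fin 2 → ℝ) | 0 ≤ q.1} := isClosed_le continuous_const (by fun_prop)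
    have h2 : IsClosed {q : ℝ × (Fin 2 → ℝ) | q.1 ≤ 1} := isClosed_le (by fun_prop) continuous_const
    have h3 : IsClosed {q : ℝ × (Fin 2 → ℝ) | q.2 0 ^ 2 + q.2 1 ^ 2 ≤ (1 - q.1) ^ 2} :=
      isClosed_le (by fun_prop) (by fun_prop)
    exact (h1.inter (h2.inter h3)).measurableSet
  have hv : volume cone0 = volume S := by
    rw [hpre]
    exact hmp.measure_preimage hSm.nullMeasurableSet
  rw [hv]
  have h1 : volume S = ∫⁻ z, volume (Prod.mk z ⁻¹' S) := Measure.prod_apply hSm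
  rw [h1]
  have h2 : ∫⁻ z in Set.Icc (0 : ℝ) 1, ENNReal.ofReal ((1 - z) ^ 2 * Real.pi) ≤
      ∫⁻ z, volume (Prod.mk z ⁻¹' S) := by
    refine le_trans (setLIntegral_mono' measurableSet_Icc fun z hz => ?_)
      (setLIntegral_le_lintegral _ _)
    rw [← disk (1 - z) (by linarith [hz.2])]
    apply measure_mono
    intro w hw
    exact ⟨hz.1, hz.2, hw⟩
  refine le_trans (le_of_eq ?_) h2
  rw [← ofReal_integral_eq_lintegral_ofReal]
  · congr 1
    rw [integral_Icc_eq_integral_Ioc, ← intervalIntegral.integral_of_le (by norm_num)]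
    have hint : ∫ z in (0 : ℝ)..1, (1 - z) ^ 2 * Real.pi = 1 / 3 * Real.pi := by
      rw [intervalIntegral.integral_mul_const]
      congr 1
      have h5 : ∀ z ∈ Set.uIcc (0 : ℝ) 1, HasDerivAt (fun z : ℝ => -(1 - z) ^ 3 / 3) ((1 - z) ^ 2) z := by
        intro z _
        refine HasDerivAt.congr_deriv (((((hasDerivAt_id' z).const_sub 1).pow 3).neg).div_const 3) ?_
        norm_num
      rw [intervalIntegral.integral_eq_sub_of_hasDerivAt h5 (by
        apply Continuous.intervalIntegrable; fun_prop)]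
      norm_num
    rw [hint]
    ring
  · apply Continuous.integrableOn_Icc
    fun_prop
  · filter_upwards with z
    positivity

end Pool.Agent.N334.CC
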