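import Pool.Agent.N334.CC.A

/-!
# Cones over ellipses are images of the standard cone (helper334)
-/

set_option autoImplicit false

namespace Pool.Agent.N334.CC

open MeasureTheory
open Pool.Agent.H349R2.Tet

theorem convex0 : Convex ℝ cone0 := by
  rintro x ⟨h1, h2, h3⟩ y ⟨h4, h5, h6⟩ a b ha hb hab
  have hc := abs_le.1 (cs (by linarith) (by linarith) h3 h6)
  have hb' : b = 1 - a := by linarith
  refine ⟨?_, ?_, ?_⟩
  · simp only [Pi.add_apply, Pi.smul_apply, smul_eq_mul]
    positivity
  · simp only [Pi.add_apply, Pi.smul_apply, smul_eq_mul]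
    nlinarith
  · simp only [Pi.add_apply, Pi.smul_apply, smul_eq_mul]
    have e1 : (a * x 0 + b * y 0) ^ 2 + (a * x 1 + b * y 1) ^ 2 =
        a ^ 2 * (x 0 ^ 2 + x 1 ^ 2) + b ^ 2 * (y 0 ^ 2 + y 1 ^ 2) +
          2 * (a * b) * (x 0 * y 0 + x 1 * y 1) := by ring
    have e2 : (1 - (a * x 2 + b * y 2)) ^ 2 = a ^ 2 * (1 - x 2) ^ 2 + b ^ 2 * (1 - y 2) ^ 2 +
        2 * (a * b) * ((1 - x 2) * (1 - y 2)) := by
      rw [hb']; ring
    rw [e1, e2]
    have f1 := mul_le_mul_of_nonneg_left h3 (sq_nonneg a)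
    have f2 := mul_le_mul_of_nonneg_left h6 (sq_nonneg b)
    have f3 := mul_le_mul_of_nonneg_left hc.2 (by positivity : 0 ≤ 2 * (a * b))
    linarith

/-- a cone over an ellipse is an affine image of the standard cone -/
theorem hull_eq (p u w a : V) (L : V ≃ₗ[ℝ] V) (hu : L (Pi.single 0 1) = u)
    (hw : L (Pi.single 1 1) = w) (ha : L (Pi.single 2 1) = a) :
    convexHull ℝ (insert (p + a) {x | ∃ s t : ℝ, s ^ 2 + t ^ 2 ≤ 1 ∧ x = p + s • u + t • w}) =
      (fun x => L x + p) '' cone0 := by
  have hL : ∀ x : V, L x = x 0 • u + x 1 • w + x 2 • a := by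
    intro x
    have h1 : x = x 0 • (Pi.single 0 1 : V) + x 1 • (Pi.single 1 1 : V) + x 2 • (Pi.single 2 1 : V) := by
      funext i
      fin_cases i <;> simp
    conv_lhs => rw [h1]
    rw [map_add, map_add, map_smul, map_smul, map_smul, hu, hw, ha]
  have hconv : Convex ℝ ((fun x => L x + p) '' cone0) := by
    have h1 : (fun x => L x + p) '' cone0 = (fun x => x + p) '' (L '' cone0) := by
      rw [Set.image_image]
    rw [h1]
    have h2 : Convex ℝ (L '' cone0) := convex0.linear_image (L : V →ₗ[ℝ] V)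
    have h3 := h2.translate p
    simpa only [add_comm] using h3
  apply Set.Subset.antisymm
  · apply convexHull_min _ hconv
    apply Set.insert_subset
    · refine ⟨Pi.single 2 1, ⟨by simp, by simp, by simp⟩, ?_⟩
      simp only [ha]
      exact add_comm _ _
    · rintro _ ⟨s, t, hst, rfl⟩
      refine ⟨![s, t, 0], ⟨by simp, by simp, by simpa using hst⟩, ?_⟩
      simp only [hL]
      simp
      abel
  · rintro _ ⟨x, ⟨h1, h2, h3⟩, rfl⟩
    simp only [hL]
    set E : Set V := insert (p + a) {x | ∃ s t : ℝ, s ^ 2 + t ^ 2 ≤ 1 ∧ x = p + s • u + t • w} with hE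
    have hap : p + a ∈ convexHull ℝ E := subset_convexHull ℝ _ (Set.mem_insert _ _)
    rcases h2.lt_or_eq with hlt | heq
    · have hpos : 0 < 1 - x 2 := by linarith
      have hq : p + (x 0 / (1 - x 2)) • u + (x 1 / (1 - x 2)) • w ∈ convexHull ℝ E := by
        apply subset_convexHull ℝ _
        refine Set.mem_insert_of_mem _ ⟨_, _, ?_, rfl⟩
        rw [div_pow, div_pow, ← add_div, div_le_one (by positivity)]
        exact h3
      have hcomb := convex_convexHull ℝ E hq hap hpos.le h1 (by ring : (1 - x 2) + x 2 = 1)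
      convert hcomb using 1
      funext i
      simp only [Pi.add_apply, Pi.smul_apply, smul_eq_mul]
      field_simp
      ring
    · have h4 : x 0 ^ 2 + x 1 ^ 2 ≤ 0 := by rw [heq] at h3; simpa using h3
      have h5 : x 0 = 0 := by nlinarith [sq_nonneg (x 0), sq_nonneg (x 1)]
      have h6 : x 1 = 0 := by nlinarith [sq_nonneg (x 0), sq_nonneg (x 1)]
      rw [h5, h6, heq]
      convert hap using 1
      simp [add_comm]

end Pool.Agent.N334.CC
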